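import Mathlib

namespace Pool.Agent.Results.MP_2eb2b4_co.Counter

/-- Numbers of the form `2^i 3^j`. -/
def Sm (x : ℕ) : Prop := ∃ i j : ℕ, x = 2 ^ i * 3 ^ j

/-- `A_n`: the `n` smallest numbers `2^i 3^j` (those with fewer than `n` smaller ones). -/
def A (n : ℕ) : Set ℕ := {x | Sm x ∧ {y | Sm y ∧ y < x}.ncard < n}

/-- The L-hitting number. -/
noncomputable def f (n : ℕ) : ℕ :=
  sInf {m | ∃ H : Finset ℕ, ↑H ⊆ A n ∧ H.card = m ∧ ∀ i j : ℕ,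
    2 ^ i * 3 ^ j ∈ A n → 2 ^ (i + 1) * 3 ^ j ∈ A n → 2 ^ i * 3 ^ (j + 1) ∈ A n →
    2 ^ i * 3 ^ j ∈ H ∨ 2 ^ (i + 1) * 3 ^ j ∈ H ∨ 2 ^ i * 3 ^ (j + 1) ∈ H}

def B (n k : ℕ) : Set ℕ := {x | x ∈ A n ∧ ∃ i j : ℕ, x = 2 ^ i * 3 ^ j ∧ (i : ℤ) - j ≡ k [ZMOD 3]}

def Bt (n k : ℕ) : Set ℕ :=
  {x | x ∈ A n ∧ ∃ i : ℕ, 1 ≤ i ∧ x = 2 ^ i ∧ i ≡ k [MOD 3] ∧ 2 ^ (i - 1) * 3 ∉ A n}

noncomputable def h (n : ℕ) : ℕ :=
  min ((B n 0).ncard - (Bt n 0).ncard)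
    (min ((B n 1).ncard - (Bt n 1).ncard) ((B n 2).ncard - (Bt n 2).ncard))

def L : Finset ℕ := {1, 2, 3, 4, 6, 8, 9, 12, 16, 18, 24, 27, 32, 36, 48, 54, 64, 72, 81, 96, 108,
  128, 144, 162, 192, 216, 243, 256, 288, 324, 384, 432, 486, 512, 576, 648, 729, 768, 864, 972,
  1024, 1152, 1296, 1458, 1536}

theorem bd {i j : ℕ} (h : 2 ^ i * 3 ^ j ≤ 1536) : i < 11 ∧ j < 7 := by
  have a : 2 ^ i ≤ 2 ^ i * 3 ^ j := Nat.le_mul_of_pos_right _ (by positivity)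
  have b : 3 ^ j ≤ 2 ^ i * 3 ^ j := Nat.le_mul_of_pos_left _ (by positivity)
  exact ⟨(Nat.pow_lt_pow_iff_right (a := 2) (by norm_num)).1 (by omega),
    (Nat.pow_lt_pow_iff_right (a := 3) (by norm_num)).1 (by omega)⟩

theorem memL (x : ℕ) : x ∈ L ↔ Sm x ∧ x ≤ 1536 := by
  constructor
  · intro hx
    have : ∀ x ∈ L, (∃ i < 11, ∃ j < 7, x = 2 ^ i * 3 ^ j) ∧ x ≤ 1536 := by decide +kernel
    obtain ⟨⟨i, -, j, -, e⟩, q⟩ := this x hx
    exact ⟨⟨i, j, e⟩, q⟩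
  · rintro ⟨⟨i, j, rfl⟩, q⟩
    have : ∀ i < 11, ∀ j < 7, 2 ^ i * 3 ^ j ≤ 1536 → 2 ^ i * 3 ^ j ∈ L := by decide +kernel
    exact this i (bd q).1 j (bd q).2 q

theorem A45 : A 45 = ↑L := by
  have c : L.card = 45 := by decide +kernel
  ext x
  rw [Finset.mem_coe, memL]
  refine and_congr_right fun _ => ⟨fun q => ?_, fun q => ?_⟩
  · by_contra z
    have := Set.ncard_le_ncard (s := (L : Set ℕ)) (t := {y | Sm y ∧ y < x})
      (fun y hy => ⟨((memL y).1 hy).1, by have := ((memL y).1 hy).2; omega⟩)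
      ((Set.finite_lt_nat x).subset fun y hy => hy.2)
    rw [Set.ncard_coe_finset] at this
    omega
  · have := Set.ncard_le_ncard (s := {y | Sm y ∧ y < x}) (t := (L.erase 1536 : Finset ℕ))
      fun y hy => Finset.mem_erase.2 ⟨by have := hy.2; omega,
        (memL y).2 ⟨hy.1, by have := hy.2; omega⟩⟩
    rw [Set.ncard_coe_finset, Finset.card_erase_of_mem (by decide +kernel)] at this
    omega

theorem part (k : ℕ) (S : Finset ℕ) (h1 : S.card = 15)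
    (h2 : ∀ x ∈ S, x ∈ L ∧ ∃ i : ℕ, i < 11 ∧ ∃ j : ℕ, j < 7 ∧ x = 2 ^ i * 3 ^ j ∧
      ((i : ℤ) - j) % 3 = k % 3) :
    15 ≤ (B 45 k).ncard - (Bt 45 k).ncard := by
  have e : Bt 45 k = ∅ := by
    refine Set.eq_empty_of_forall_notMem ?_
    rintro x ⟨p, i, -, rfl, -, q⟩
    rw [A45] at p q
    have a := (bd (i := i) (j := 0) (by simpa using ((memL _).1 p).2)).1
    have : ∀ i < 11, 2 ^ (i - 1) * 3 ∈ L := by decide +kernel
    exact q (this i a)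
  have := Set.ncard_le_ncard (s := (S : Set ℕ)) (t := B 45 k) (fun x hx => by
    obtain ⟨p, i, -, j, -, q⟩ := h2 x hx
    exact ⟨by rw [A45]; exact p, i, j, q⟩)
    (L.finite_toSet.subset fun y hy => by rw [← A45]; exact hy.1)
  rw [Set.ncard_coe_finset] at this
  rw [e, Set.ncard_empty]
  omega

theorem result : f 45 < h 45 ∧ ¬ ∀ n ≥ 1, f n = h n := by
  have h1 : f 45 ≤ 14 := by
    refine Nat.sInf_le ⟨{3, 4, 18, 24, 32, 81, 108, 144, 192, 384, 486, 512, 648, 864}, ?_,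
      by decide +kernel, fun i j p _ q => ?_⟩
    · rw [A45]; exact Finset.coe_subset.2 (by decide +kernel)
    · rw [A45] at p q
      have a := bd ((memL _).1 p).2
      have b := ((memL _).1 q).2
      revert b
      revert j
      have : ∀ i < 11, ∀ j < 7, 2 ^ i * 3 ^ (j + 1) ≤ 1536 →
        2 ^ i * 3 ^ j ∈ ({3, 4, 18, 24, 32, 81, 108, 144, 192, 384, 486, 512, 648, 864} : Finset ℕ) ∨
        2 ^ (i + 1) * 3 ^ j ∈ ({3, 4, 18, 24, 32, 81, 108, 144, 192, 384, 486, 512, 648, 864} : Finset ℕ) ∨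
        2 ^ i * 3 ^ (j + 1) ∈ ({3, 4, 18, 24, 32, 81, 108, 144, 192, 384, 486, 512, 648, 864} : Finset ℕ) := by
        decide +kernel
      exact fun j _ _ _ a b => this i a.1 j a.2 b
  have h2 : 15 ≤ h 45 := le_min
    (part 0 {1, 6, 8, 27, 36, 48, 64, 162, 216, 288, 384, 512, 729, 972, 1296}
      (by decide +kernel) (by decide +kernel)) (le_min
    (part 1 {2, 9, 12, 16, 54, 72, 96, 128, 243, 324, 432, 576, 768, 1024, 1458}
      (by decide +kernel) (by decide +kernel))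
    (part 2 {3, 4, 18, 24, 32, 81, 108, 144, 192, 256, 486, 648, 864, 1152, 1536}
      (by decide +kernel) (by decide +kernel)))
  have h3 : f 45 < h 45 := by omega
  exact ⟨h3, fun q => h3.ne (q 45 (by norm_num))⟩

end Pool.Agent.Results.MP_2eb2b4_co.Counter
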